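import Pool.Agent.H379R3.CDQ.Stmts

/-! Task Lift of project CDQ: equivariant lifting of cochains. -/

set_option autoImplicit false

open Topology

namespace Pool.Agent.H379R3.CDQ

theorem taskLift : TaskLift := by
  intro G _ _ _ A B _ _ hA hB π hπ hπe n h hlc he
  choose s hs using hπ
  refine ⟨fun v => v 0 • s ((v 0)⁻¹ • h v), ?_, ?_, ?_⟩
  · rw [IsLocallyConstant.iff_eventually_eq]
    intro v
    have h1 := (IsLocallyConstant.iff_eventually_eq h).1 hlc v
    have c1 : Continuous (fun w : Fin (n + 1) → G => w 0 * (v 0)⁻¹) :=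
      (continuous_apply 0).mul continuous_const
    have c2 : Continuous (fun w : Fin (n + 1) → G => (v 0)⁻¹ * w 0) :=
      continuous_const.mul (continuous_apply 0)
    have h2 : ∀ᶠ w in 𝓝 v, w 0 * (v 0)⁻¹ ∈ (MulAction.stabilizer G (h v) : Set G) := by
      refine ((hB (h v)).preimage c1).mem_nhds ?_
      simp
    have h3 : ∀ᶠ w in 𝓝 v,
        (v 0)⁻¹ * w 0 ∈ (MulAction.stabilizer G (s ((v 0)⁻¹ • h v)) : Set G) := by
      refine ((hA (s ((v 0)⁻¹ • h v))).preimage c2).mem_nhds ?_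
      simp
    filter_upwards [h1, h2, h3] with w e1 e2 e3
    have e2' : (w 0 * (v 0)⁻¹) • h v = h v := e2
    have e3' : ((v 0)⁻¹ * w 0) • s ((v 0)⁻¹ • h v) = s ((v 0)⁻¹ • h v) := e3
    have e4 : (w 0)⁻¹ • h v = (v 0)⁻¹ • h v := by
      conv_lhs => rw [← e2']
      rw [← mul_smul, inv_mul_cancel_left]
    rw [e1, e4]
    conv_rhs => rw [← e3']
    rw [← mul_smul, mul_inv_cancel_left]
  · intro g v
    show (g * v 0) • s ((g * v 0)⁻¹ • h (fun i => g * v i)) = g • v 0 • s ((v 0)⁻¹ • h v)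
    rw [he g v, mul_inv_rev, mul_smul, mul_smul, inv_smul_smul]
  · intro v
    show π (v 0 • s ((v 0)⁻¹ • h v)) = h v
    rw [hπe, hs, smul_inv_smul]

end Pool.Agent.H379R3.CDQ
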